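import Mathlib

set_option autoImplicit false

/-! Statements of the parts of the theorem on convex coverings of the sphere. -/

namespace Pool.Agent.Y624.SC

/-- CELL1: the coordinates of a point of a cell of a regular simplex -/
def S_CELL1 : Prop := ∀ d : ℕ, 2 ≤ d → ∀ v : Fin (d + 1) → EuclideanSpace ℝ (Fin d),
  (∀ i, ‖v i‖ = 1) → (∀ i j, i ≠ j → inner ℝ (v i) (v j) = -1 / (d : ℝ)) →
  ∀ x : EuclideanSpace ℝ (Fin d), (∀ j, inner ℝ x (v j) ≤ inner ℝ x (v 0)) →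
  ∃ a : Fin (d + 1) → ℝ, a 0 = 0 ∧ (∀ j, 0 ≤ a j) ∧ x = - ∑ j, a j • v j

/-- CELL2: the angle of two nonnegative combinations of `d` vertices of a regular simplex whose
supports are disjoint -/
def S_CELL2 : Prop := ∀ d : ℕ, 2 ≤ d → ∀ v : Fin (d + 1) → EuclideanSpace ℝ (Fin d),
  (∀ i, ‖v i‖ = 1) → (∀ i j, i ≠ j → inner ℝ (v i) (v j) = -1 / (d : ℝ)) →
  ∀ a b : Fin (d + 1) → ℝ, a 0 = 0 → b 0 = 0 → (∀ j, 0 ≤ a j) → (∀ j, 0 ≤ b j) →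
  (∀ j, a j = 0 ∨ b j = 0) →
  - (inner ℝ (∑ j, a j • v j) (∑ j, b j • v j) : ℝ) ≤
    √(((d / 2 : ℕ) : ℝ) * (d - (d / 2 : ℕ)) / ((((d / 2 : ℕ) : ℝ) + 1) * (d - (d / 2 : ℕ) + 1))) *
      (‖∑ j, a j • v j‖ * ‖∑ j, b j • v j‖)

/-- CELL3: moving the coordinates -/
def S_CELL3 : Prop := ∀ (n d : ℕ) (v : Fin n → EuclideanSpace ℝ (Fin d)) (g : ℝ), g ≤ 1 →
  ∀ a b : Fin n → ℝ, (∀ j, 0 ≤ a j) → (∀ j, 0 ≤ b j) →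
  ∃ a' b' : Fin n → ℝ, (∀ j, 0 ≤ a' j) ∧ (∀ j, 0 ≤ b' j) ∧ (∀ j, a' j + b' j = a j + b j) ∧
    (∀ j, a' j = 0 ∨ b' j = 0) ∧
    g / 2 * (‖∑ j, a' j • v j‖ ^ 2 + ‖∑ j, b' j • v j‖ ^ 2) +
      inner ℝ (∑ j, a' j • v j) (∑ j, b' j • v j) ≤
    g / 2 * (‖∑ j, a j • v j‖ ^ 2 + ‖∑ j, b j • v j‖ ^ 2) +
      inner ℝ (∑ j, a j • v j) (∑ j, b j • v j)

/-- AVG: for vectors with sum zero there are disjoint sets of vectors whose sums have a large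
angle -/
def S_AVG : Prop := ∀ d k : ℕ, 1 ≤ k → k < d → ∀ v : Fin (d + 1) → EuclideanSpace ℝ (Fin d),
  ∑ i, v i = 0 → (∃ i, v i ≠ 0) →
  ∃ (I J : Finset (Fin (d + 1))) (i : Fin (d + 1)), Disjoint I J ∧ i ∉ I ∧ i ∉ J ∧
    ∑ a ∈ I, v a ≠ 0 ∧ ∑ a ∈ J, v a ≠ 0 ∧
    (inner ℝ (∑ a ∈ I, v a) (∑ a ∈ J, v a) : ℝ) ≤
      - √((k : ℝ) * (d - k) / (((k : ℝ) + 1) * (d - k + 1))) *
        (‖∑ a ∈ I, v a‖ * ‖∑ a ∈ J, v a‖)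

/-- FUN: a closed convex cone without lines has a linear functional which is positive on it -/
def S_FUN : Prop := ∀ (V : Type) [NormedAddCommGroup V] [NormedSpace ℝ V] [FiniteDimensional ℝ V]
  (C : Set V), IsClosed C → (0 : V) ∈ C → (∀ x ∈ C, ∀ y ∈ C, x + y ∈ C) →
  (∀ a : ℝ, 0 ≤ a → ∀ x ∈ C, a • x ∈ C) → (∀ x ∈ C, -x ∈ C → x = 0) → (∃ x : V, x ≠ 0) →
  ∃ f : V →L[ℝ] ℝ, f ≠ 0 ∧ (∀ x ∈ C, x ≠ 0 → 0 < f x) ∧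
    Module.finrank ℝ (LinearMap.ker (f : V →ₗ[ℝ] ℝ)) + 1 = Module.finrank ℝ V

end Pool.Agent.Y624.SC
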