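import Pool.Agent.Helper133.Brouwer
import Pool.Agent.Y624.SC.Stm

set_option autoImplicit false

/-!
# Coverings of a space by closed convex cones without lines

`d + 1` closed convex cones without lines which cover a `d`-dimensional space contain a complete
simplicial fan: there are vectors `v i` with sum zero, not all zero, such that the `i`-th cone
contains all `v j` with `j ≠ i`. The proof uses Brouwer's fixed point theorem.
-/

namespace Pool.Agent.Y624.SC

open Metric

/-- a closed convex cone without lines -/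
structure Sal {V : Type} [NormedAddCommGroup V] [NormedSpace ℝ V] (C : Set V) : Prop where
  closed : IsClosed C
  zero : (0 : V) ∈ C
  add : ∀ x ∈ C, ∀ y ∈ C, x + y ∈ C
  smul : ∀ a : ℝ, 0 ≤ a → ∀ x ∈ C, a • x ∈ C
  sal : ∀ x ∈ C, -x ∈ C → x = 0

section basic

variable {V : Type} [NormedAddCommGroup V] [NormedSpace ℝ V] {ι : Type}

theorem Sal.sum {C : Set V} (h : Sal C) (s : Finset ι) (a : ι → ℝ) (q : ι → V)
    (ha : ∀ i ∈ s, 0 ≤ a i) (hq : ∀ i ∈ s, a i ≠ 0 → q i ∈ C) : ∑ i ∈ s, a i • q i ∈ C := by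
  classical
  induction s using Finset.induction_on with
  | empty => simpa using h.zero
  | insert i s hi ih =>
    rw [Finset.sum_insert hi]
    refine h.add _ ?_ _ (ih (fun j hj => ha j (Finset.mem_insert_of_mem hj))
      (fun j hj => hq j (Finset.mem_insert_of_mem hj)))
    by_cases h0 : a i = 0
    · rw [h0, zero_smul]; exact h.zero
    · exact h.smul _ (ha i (Finset.mem_insert_self _ _)) _ (hq i (Finset.mem_insert_self _ _) h0)

/-- a nontrivial nonnegative combination of nonzero elements of a cone without lines is not zero -/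
theorem Sal.sum_ne {C : Set V} (h : Sal C) [Fintype ι] (a : ι → ℝ) (q : ι → V)
    (ha : ∀ i, 0 ≤ a i) (hq : ∀ i, a i ≠ 0 → q i ∈ C) (hq0 : ∀ i, q i ≠ 0)
    (hs : ∑ i, a i • q i = 0) (i : ι) : a i = 0 := by
  classical
  by_contra h0
  have h1 : a i • q i ∈ C := h.smul _ (ha i) _ (hq i h0)
  have h2 : - (a i • q i) ∈ C := by
    rw [← Finset.add_sum_erase _ _ (Finset.mem_univ i)] at hs
    rw [neg_eq_of_add_eq_zero_right hs]
    exact h.sum _ _ _ (fun j _ => ha j) (fun j _ => hq j)
  rcases smul_eq_zero.1 (h.sal _ h1 h2) with h3 | h3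
  · exact h0 h3
  · exact hq0 i h3

/-- Brouwer's theorem for cones -/
theorem core [FiniteDimensional ℝ V] (Ψ : V → V) (hc : Continuous Ψ) (h0 : ∀ y, Ψ y ≠ 0)
    (C : ι → Set V) (hC : ∀ i, Sal (C i)) (hb : ∀ y, ‖y‖ = 1 → ∃ j, y ∈ C j ∧ Ψ y ∈ C j) :
    False := by
  have hn : ∀ y, ‖Ψ y‖ ≠ 0 := fun y => norm_ne_zero_iff.2 (h0 y)
  obtain ⟨y, hy⟩ := Pool.Agent.Helper133.Brouwer.brouwer (fun y => - (‖Ψ y‖⁻¹ • Ψ y))
    ((Continuous.smul (hc.norm.inv₀ hn) hc).neg) 1 (by
      intro y
      rw [norm_neg, norm_smul, norm_inv, norm_norm, inv_mul_cancel₀ (hn y)])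
  have h1 : ‖y‖ = 1 := by
    rw [← hy, norm_neg, norm_smul, norm_inv, norm_norm, inv_mul_cancel₀ (hn y)]
  obtain ⟨j, hj, hj'⟩ := hb y h1
  have h2 : -y ∈ C j := by
    rw [← hy, neg_neg]
    exact (hC j).smul _ (inv_nonneg.2 (norm_nonneg _)) _ hj'
  have := (hC j).sal y hj h2
  rw [this, norm_zero] at h1
  exact zero_ne_one h1

/-- if the cones cover the space and `q i` is in all cones except the `i`-th then some nontrivial
nonnegative combination of the `q i` is zero -/
theorem stepA [FiniteDimensional ℝ V] [Fintype ι] (C : ι → Set V) (hC : ∀ i, Sal (C i))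
    (hcov : ∀ x, ∃ i, x ∈ C i) (q : ι → V) (hq0 : ∀ i, q i ≠ 0) (hq : ∀ i j, j ≠ i → q i ∈ C j) :
    ∃ a : ι → ℝ, (∀ i, 0 ≤ a i) ∧ (∃ i, 0 < a i) ∧ ∑ i, a i • q i = 0 := by
  by_contra hno
  push Not at hno
  let m : ι → V → ℝ := fun i y => infDist y (C i) + max 0 (1 - ‖y‖)
  have hm : ∀ i y, 0 ≤ m i y := fun i y => add_nonneg infDist_nonneg (le_max_left _ _)
  refine core (fun y => ∑ i, m i y • q i) ?_ ?_ C hC ?_
  · refine continuous_finset_sum _ fun i _ => ?_
    refine Continuous.smul ?_ continuous_const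
    exact (continuous_infDist_pt _).add
      (continuous_const.max (continuous_const.sub continuous_norm))
  · intro y
    refine hno (fun i => m i y) (fun i => hm i y) ?_
    by_contra hall
    push Not at hall
    have hz : ∀ i, m i y = 0 := fun i => le_antisymm (hall i) (hm i y)
    have h1 : ∀ i, y ∈ C i := by
      intro i
      have h2 : infDist y (C i) = 0 := by
        have := hz i
        have h3 : 0 ≤ infDist y (C i) := infDist_nonneg
        have h4 : 0 ≤ max 0 (1 - ‖y‖) := le_max_left _ _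
        change infDist y (C i) + max 0 (1 - ‖y‖) = 0 at this
        linarith
      exact ((hC i).closed.mem_iff_infDist_zero ⟨0, (hC i).zero⟩).2 h2
    obtain ⟨j, hj⟩ := hcov (-y)
    have h5 : y = 0 := (hC j).sal y (h1 j) hj
    have h6 := hz j
    have h3 : 0 ≤ infDist y (C j) := infDist_nonneg
    have h4 : 1 ≤ max 0 (1 - ‖y‖) := by
      rw [h5, norm_zero, sub_zero]; exact le_max_right _ _
    change infDist y (C j) + max 0 (1 - ‖y‖) = 0 at h6
    linarith
  · intro y hy
    obtain ⟨j, hj⟩ := hcov y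
    refine ⟨j, hj, ?_⟩
    refine (hC j).sum _ _ _ (fun i _ => hm i y) fun i _ hi => hq i j ?_
    rintro rfl
    apply hi
    change infDist y (C j) + max 0 (1 - ‖y‖) = 0
    rw [((hC j).closed.mem_iff_infDist_zero ⟨0, (hC j).zero⟩).1 hj, hy]
    simp

/-- if cones cover a closed half space and the intersections of all but one of them contain nonzero
elements of the boundary then their intersection is not zero -/
theorem stepB [FiniteDimensional ℝ V] [Fintype ι] (f : V →L[ℝ] ℝ) (w : V) (hw : f w = -1)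
    (C : ι → Set V) (hC : ∀ i, Sal (C i)) (hcov : ∀ x, f x ≤ 0 → ∃ i, x ∈ C i) (q : ι → V)
    (hq0 : ∀ i, q i ≠ 0) (hqf : ∀ i, f (q i) = 0) (hq : ∀ i j, j ≠ i → q i ∈ C j) :
    ∃ x, x ≠ 0 ∧ ∀ i, x ∈ C i := by
  by_contra hno
  push Not at hno
  let H : Submodule ℝ V := LinearMap.ker (f : V →ₗ[ℝ] ℝ)
  let p : H → V := fun y => (y : V) + max 0 (1 - ‖y‖) • w
  have hpc : Continuous p := by
    refine continuous_subtype_val.add (Continuous.smul ?_ continuous_const)
    exact continuous_const.max (continuous_const.sub continuous_norm)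
  have hfy : ∀ y : H, f (y : V) = 0 := fun y => y.2
  have hfp : ∀ y : H, f (p y) = - max 0 (1 - ‖y‖) := by
    intro y
    simp only [p, map_add, map_smul, hfy, hw, smul_eq_mul]
    ring
  have hp0 : ∀ y : H, p y ≠ 0 := by
    intro y hy
    have h1 : max 0 (1 - ‖y‖) = 0 := by
      have := hfp y
      rw [hy, map_zero] at this
      linarith
    have h2 : (y : V) = 0 := by
      have h3 : (y : V) + max 0 (1 - ‖y‖) • w = 0 := hy
      rw [h1, zero_smul, add_zero] at h3
      exact h3
    have h4 : y = 0 := by exact_mod_cast h2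
    rw [h4, norm_zero, sub_zero] at h1
    norm_num at h1
  let m : ι → H → ℝ := fun i y => infDist (p y) (C i)
  have hm : ∀ i y, 0 ≤ m i y := fun i y => infDist_nonneg
  have hm0 : ∀ i y, m i y = 0 ↔ p y ∈ C i := fun i y =>
    ((hC i).closed.mem_iff_infDist_zero ⟨0, (hC i).zero⟩).symm
  let q' : ι → H := fun i => ⟨q i, hqf i⟩
  have hcov' : ∀ y : H, ∃ j, p y ∈ C j := fun y => hcov _ (by
    rw [hfp]
    exact neg_nonpos.2 (le_max_left _ _))
  have hval : ∀ y : H, ((∑ i, m i y • q' i : H) : V) = ∑ i, m i y • q i := by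
    intro y
    push_cast
    rfl
  refine core (V := H) (fun y => ∑ i, m i y • q' i) ?_ ?_ (fun j => {y : H | (y : V) ∈ C j})
    ?_ ?_
  · refine continuous_finset_sum _ fun i _ => ?_
    exact Continuous.smul ((continuous_infDist_pt _).comp hpc) continuous_const
  · intro y hy
    obtain ⟨j, hj⟩ := hcov' y
    have h1 : ∑ i, m i y • q i = 0 := by
      rw [← hval, hy]; rfl
    have h2 := (hC j).sum_ne (fun i => m i y) q (fun i => hm i y) (fun i hi => hq i j (by
      rintro rfl
      exact hi ((hm0 _ _).2 hj))) hq0 h1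
    exact hno (p y) (hp0 y) |>.elim fun i hi => hi ((hm0 i y).1 (h2 i))
  · intro i
    refine ⟨(hC i).closed.preimage continuous_subtype_val, (hC i).zero, ?_, ?_, ?_⟩
    · intro x hx y hy
      exact (hC i).add _ hx _ hy
    · intro a ha x hx
      exact (hC i).smul a ha _ hx
    · intro x hx hx'
      have : (x : V) = 0 := (hC i).sal _ hx hx'
      exact_mod_cast this
  · intro y hy
    have hpy : p y = (y : V) := by
      simp only [p, hy, sub_self, max_self, zero_smul, add_zero]
    obtain ⟨j, hj⟩ := hcov' y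
    refine ⟨j, ?_, ?_⟩
    · change (y : V) ∈ C j
      rw [← hpy]; exact hj
    · change ((∑ i, m i y • q' i : H) : V) ∈ C j
      rw [hval]
      refine (hC j).sum _ _ _ (fun i _ => hm i y) fun i _ hi => hq i j ?_
      rintro rfl
      exact hi ((hm0 _ _).2 hj)

end basic

/-- `d + 1` cones without lines which cover a space of dimension `d`: the intersection of any `d`
of them is not zero -/
theorem exists_q (hF : S_FUN) (m : ℕ) : ∀ (V : Type) [NormedAddCommGroup V] [NormedSpace ℝ V]
    [FiniteDimensional ℝ V] (ι : Type) [Fintype ι] [DecidableEq ι],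
    Module.finrank ℝ V = m + 1 → Fintype.card ι = m + 2 → ∀ C : ι → Set V, (∀ i, Sal (C i)) →
    (∀ x, ∃ i, x ∈ C i) → ∀ i, ∃ x, x ≠ 0 ∧ ∀ j, j ≠ i → x ∈ C j := by
  induction m with
  | zero =>
    intro V _ _ _ ι _ _ hV hι C hC hcov i
    haveI : Nontrivial V := Module.nontrivial_of_finrank_pos (R := ℝ) (by omega)
    obtain ⟨x, hx⟩ := exists_ne (0 : V)
    have key : ∃ z : V, z ≠ 0 ∧ z ∉ C i := by
      by_cases h : x ∈ C i
      · exact ⟨-x, neg_ne_zero.2 hx, fun h' => hx ((hC i).sal x h h')⟩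
      · exact ⟨x, hx, h⟩
    obtain ⟨z, hz0, hz⟩ := key
    obtain ⟨k, hk⟩ := hcov z
    have hki : k ≠ i := by rintro rfl; exact hz hk
    refine ⟨z, hz0, fun j hj => ?_⟩
    have : j = k := by
      by_contra hjk
      have h3 : ({i, j, k} : Finset ι).card ≤ Fintype.card ι := Finset.card_le_univ _
      rw [Finset.card_insert_of_notMem (by simp [hj.symm, hki.symm]),
        Finset.card_insert_of_notMem (by simp [hjk]), Finset.card_singleton, hι] at h3
      omega
    rw [this]; exact hk
  | succ m ih =>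
    intro V _ _ _ ι _ _ hV hι C hC hcov i
    haveI : Nontrivial V := Module.nontrivial_of_finrank_pos (R := ℝ) (by omega)
    obtain ⟨f, hf0, hfp, hfr⟩ := hF V (C i) (hC i).closed (hC i).zero (hC i).add (hC i).smul
      (hC i).sal (exists_ne (0 : V))
    let H : Submodule ℝ V := LinearMap.ker (f : V →ₗ[ℝ] ℝ)
    have hcov2 : ∀ x : V, f x ≤ 0 → ∃ j : {j // j ≠ i}, x ∈ C j := by
      intro x hx
      by_cases h0 : x = 0
      · have : ∃ j, j ≠ i := by
          have : 1 < Fintype.card ι := by omega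
          haveI : Nontrivial ι := Fintype.one_lt_card_iff_nontrivial.1 this
          exact exists_ne i
        obtain ⟨j, hj⟩ := this
        exact ⟨⟨j, hj⟩, by rw [h0]; exact (hC j).zero⟩
      · obtain ⟨j, hj⟩ := hcov x
        refine ⟨⟨j, ?_⟩, hj⟩
        rintro rfl
        exact absurd (hfp x hj h0) (not_lt.2 hx)
    have hih := ih H {j // j ≠ i} (by change Module.finrank ℝ H = _; have : Module.finrank ℝ H + 1 = _ := hfr; omega)
      (by rw [Fintype.card_subtype_compl, Fintype.card_subtype_eq]; omega)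
      (fun j => {y : H | (y : V) ∈ C j}) (by
        intro j
        refine ⟨(hC j).closed.preimage continuous_subtype_val, (hC j).zero, ?_, ?_, ?_⟩
        · intro x hx y hy
          exact (hC j).add _ hx _ hy
        · intro a ha x hx
          exact (hC j).smul a ha _ hx
        · intro x hx hx'
          have : (x : V) = 0 := (hC j).sal _ hx hx'
          exact_mod_cast this)
      (by
        intro x
        have : f (x : V) = 0 := x.2
        exact hcov2 x this.le)
    choose q hq0 hq using hih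
    obtain ⟨w, hw⟩ : ∃ w, f w = -1 := by
      obtain ⟨z, hz⟩ : ∃ z, f z ≠ 0 := by
        by_contra h
        push Not at h
        exact hf0 (ContinuousLinearMap.ext h)
      exact ⟨(-(f z)⁻¹) • z, by rw [map_smul, smul_eq_mul, neg_mul, inv_mul_cancel₀ hz]⟩
    obtain ⟨x, hx0, hx⟩ := stepB f w hw (fun j : {j // j ≠ i} => C j) (fun j => hC j) hcov2
      (fun j => (q j : V)) (fun j h => hq0 j (by exact_mod_cast h)) (fun j => (q j).2)
      (fun j k hk => hq j k hk)
    exact ⟨x, hx0, fun j hj => hx ⟨j, hj⟩⟩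

/-- the fan in `d + 1` cones which cover a space of dimension `d` -/
theorem exists_fan (hF : S_FUN) (d : ℕ) (hd : 1 ≤ d) (V : Type) [NormedAddCommGroup V]
    [NormedSpace ℝ V] [FiniteDimensional ℝ V] (hV : Module.finrank ℝ V = d)
    (C : Fin (d + 1) → Set V) (hC : ∀ i, Sal (C i)) (hcov : ∀ x, ∃ i, x ∈ C i) :
    ∃ v : Fin (d + 1) → V, ∑ i, v i = 0 ∧ (∃ i, v i ≠ 0) ∧ ∀ i j, j ≠ i → v i ∈ C j := by
  obtain ⟨m, rfl⟩ : ∃ m, d = m + 1 := ⟨d - 1, by omega⟩
  have h := exists_q hF m V (Fin (m + 1 + 1)) hV (by simp) C hC hcov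
  choose q hq0 hq using h
  obtain ⟨a, ha, ⟨i, hi⟩, hs⟩ := stepA C hC hcov q hq0 (fun i j hj => hq i j hj)
  refine ⟨fun i => a i • q i, hs, ⟨i, smul_ne_zero hi.ne' (hq0 i)⟩, fun i j hj => ?_⟩
  exact (hC j).smul _ (ha i) _ (hq i j hj)

end Pool.Agent.Y624.SC
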