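import Pool.Agent.Y624.SC.Core

set_option autoImplicit false

/-!
# Coverings of the sphere by convex sets: the assembly
-/

namespace Pool.Agent.Y624.SC

open Metric

/-- the constant `c` with `- c` the least inner product of two points of a cell -/
noncomputable def cc (d : ℕ) : ℝ :=
  √(((d / 2 : ℕ) : ℝ) * (d - (d / 2 : ℕ)) / ((((d / 2 : ℕ) : ℝ) + 1) * (d - (d / 2 : ℕ) + 1)))

theorem cell_inner (h1 : S_CELL1) (h2 : S_CELL2) (h3 : S_CELL3) (d : ℕ) (hd : 2 ≤ d)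
    (v : Fin (d + 1) → EuclideanSpace ℝ (Fin d)) (hv : ∀ i, ‖v i‖ = 1)
    (hvv : ∀ i j, i ≠ j → inner ℝ (v i) (v j) = -1 / (d : ℝ))
    (x y : EuclideanSpace ℝ (Fin d)) (hx : ‖x‖ = 1) (hy : ‖y‖ = 1)
    (hxc : ∀ j, inner ℝ x (v j) ≤ inner ℝ x (v 0)) (hyc : ∀ j, inner ℝ y (v j) ≤ inner ℝ y (v 0)) :
    - cc d ≤ inner ℝ x y := by
  by_contra hlt
  rw [not_le] at hlt
  obtain ⟨a, ha0, ha, hxa⟩ := h1 d hd v hv hvv x hxc
  obtain ⟨b, hb0, hb, hyb⟩ := h1 d hd v hv hvv y hyc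
  have hxy : |inner ℝ x y| ≤ 1 := by
    have := abs_real_inner_le_norm x y
    rwa [hx, hy, one_mul] at this
  have hc0 : 0 ≤ cc d := Real.sqrt_nonneg _
  set g : ℝ := (cc d + - inner ℝ x y) / 2 with hg
  have hg1 : g ≤ 1 := by
    have := (abs_le.1 hxy).1
    linarith
  obtain ⟨a', b', ha', hb', hab, hdis, hle⟩ := h3 (d + 1) d v g hg1 a b ha hb
  have ha0' : a' 0 = 0 := by
    have := hab 0
    rw [ha0, hb0] at this
    linarith [ha' 0, hb' 0]
  have hb0' : b' 0 = 0 := by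
    have := hab 0
    rw [ha0, hb0] at this
    linarith [ha' 0, hb' 0]
  have h4 := h2 d hd v hv hvv a' b' ha0' hb0' ha' hb' hdis
  have h5 : g / 2 * (‖∑ j, a j • v j‖ ^ 2 + ‖∑ j, b j • v j‖ ^ 2) +
      inner ℝ (∑ j, a j • v j) (∑ j, b j • v j) = g + inner ℝ x y := by
    have e1 : ‖∑ j, a j • v j‖ = 1 := by rw [← hx, hxa, norm_neg]
    have e2 : ‖∑ j, b j • v j‖ = 1 := by rw [← hy, hyb, norm_neg]
    have e3 : (inner ℝ (∑ j, a j • v j) (∑ j, b j • v j) : ℝ) = inner ℝ x y := by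
      rw [hxa, hyb, inner_neg_neg]
    rw [e1, e2, e3]; ring
  rw [h5] at hle
  change _ ≤ cc d * _ at h4
  set X := ‖∑ j, a' j • v j‖ with hX
  set Y := ‖∑ j, b' j • v j‖ with hY
  have h6 : X * Y ≤ (X ^ 2 + Y ^ 2) / 2 := by nlinarith [sq_nonneg (X - Y)]
  have h7 : cc d * (X * Y) ≤ g * ((X ^ 2 + Y ^ 2) / 2) := by
    have h8 : cc d * (X * Y) ≤ cc d * ((X ^ 2 + Y ^ 2) / 2) := mul_le_mul_of_nonneg_left h6 hc0
    have h9 : cc d * ((X ^ 2 + Y ^ 2) / 2) ≤ g * ((X ^ 2 + Y ^ 2) / 2) :=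
      mul_le_mul_of_nonneg_right (by linarith) (by positivity)
    linarith
  linarith

/-- the cone over a set of unit vectors -/
def cone {V : Type} [NormedAddCommGroup V] [NormedSpace ℝ V] (K : Set V) : Set V :=
  {y | y = 0 ∨ ‖y‖⁻¹ • y ∈ K}

theorem cone_closed {V : Type} [NormedAddCommGroup V] [NormedSpace ℝ V] {K : Set V}
    (hK : IsClosed K) : IsClosed (cone K) := by
  have h1 : ContinuousOn (fun y : V => ‖y‖⁻¹ • y) {y : V | y ≠ 0} := by
    refine ContinuousOn.smul (ContinuousOn.inv₀ continuous_norm.continuousOn ?_) continuousOn_id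
    intro y hy
    exact norm_ne_zero_iff.2 hy
  have h2 : IsOpen ({y : V | y ≠ 0} ∩ (fun y : V => ‖y‖⁻¹ • y) ⁻¹' Kᶜ) :=
    h1.isOpen_inter_preimage isOpen_ne hK.isOpen_compl
  have h3 : cone K = ({y : V | y ≠ 0} ∩ (fun y : V => ‖y‖⁻¹ • y) ⁻¹' Kᶜ)ᶜ := by
    ext y
    simp only [cone, Set.mem_setOf_eq, Set.mem_compl_iff, Set.mem_inter_iff, Set.mem_preimage]
    tauto
  rw [h3]
  exact h2.isClosed_compl

/-- sets of unit vectors: convexity in the sphere -/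
def SphConv {V : Type} [NormedAddCommGroup V] [NormedSpace ℝ V] (A : Set V) : Prop :=
  ∀ x ∈ A, ‖x‖ = 1 → ∀ y ∈ A, ‖y‖ = 1 → ∀ a b : ℝ, 0 ≤ a → 0 ≤ b → ‖a • x + b • y‖ = 1 →
    a • x + b • y ∈ A

theorem norm_inv_smul {V : Type} [NormedAddCommGroup V] [NormedSpace ℝ V] {z : V} (hz : z ≠ 0) :
    ‖‖z‖⁻¹ • z‖ = 1 := by
  rw [norm_smul, norm_inv, norm_norm, inv_mul_cancel₀ (norm_ne_zero_iff.2 hz)]

theorem sal_cone {V : Type} [NormedAddCommGroup V] [NormedSpace ℝ V] {A : Set V}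
    (hA : SphConv A) (hd : diam (A ∩ sphere (0 : V) 1) < 2) :
    Sal (cone (closure (A ∩ sphere (0 : V) 1))) := by
  set K := closure (A ∩ sphere (0 : V) 1) with hK
  have hbd : Bornology.IsBounded (A ∩ sphere (0 : V) 1) := isBounded_sphere.subset
    Set.inter_subset_right
  refine ⟨cone_closed isClosed_closure, Or.inl rfl, ?_, ?_, ?_⟩
  · intro x hx y hy
    rcases hx with rfl | hx
    · rw [zero_add]; exact hy
    rcases hy with rfl | hy
    · rw [add_zero]; exact Or.inr hx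
    by_cases h0 : x + y = 0
    · exact Or.inl h0
    right
    by_cases hx0 : x = 0
    · rw [hx0, zero_add]; exact hy
    by_cases hy0 : y = 0
    · rw [hy0, add_zero]; exact hx
    obtain ⟨p, hp, hpl⟩ := mem_closure_iff_seq_limit.1 hx
    obtain ⟨q, hq, hql⟩ := mem_closure_iff_seq_limit.1 hy
    have hz : Filter.Tendsto (fun n => ‖x‖ • p n + ‖y‖ • q n) Filter.atTop (nhds (x + y)) := by
      have e1 := (hpl.const_smul ‖x‖).add (hql.const_smul ‖y‖)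
      rwa [smul_smul, smul_smul, mul_inv_cancel₀ (norm_ne_zero_iff.2 hx0),
        mul_inv_cancel₀ (norm_ne_zero_iff.2 hy0), one_smul, one_smul] at e1
    have hz' : Filter.Tendsto (fun n => ‖‖x‖ • p n + ‖y‖ • q n‖⁻¹ • (‖x‖ • p n + ‖y‖ • q n))
        Filter.atTop (nhds (‖x + y‖⁻¹ • (x + y))) :=
      (hz.norm.inv₀ (norm_ne_zero_iff.2 h0)).smul hz
    refine mem_closure_of_tendsto hz' ?_
    have hne : ∀ᶠ n in Filter.atTop, ‖x‖ • p n + ‖y‖ • q n ≠ 0 := hz.eventually_ne h0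
    filter_upwards [hne] with n hn
    have hun := norm_inv_smul hn
    refine ⟨?_, by rw [mem_sphere_zero_iff_norm]; exact hun⟩
    have e2 : ‖‖x‖ • p n + ‖y‖ • q n‖⁻¹ • (‖x‖ • p n + ‖y‖ • q n) =
        (‖‖x‖ • p n + ‖y‖ • q n‖⁻¹ * ‖x‖) • p n + (‖‖x‖ • p n + ‖y‖ • q n‖⁻¹ * ‖y‖) • q n := by
      rw [smul_add, smul_smul, smul_smul]
    rw [e2] at hun ⊢
    exact hA _ (hp n).1 (mem_sphere_zero_iff_norm.1 (hp n).2) _ (hq n).1
      (mem_sphere_zero_iff_norm.1 (hq n).2) _ _ (by positivity) (by positivity) hun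
  · intro a ha x hx
    rcases hx with rfl | hx
    · left; rw [smul_zero]
    by_cases h0 : a = 0
    · left; rw [h0, zero_smul]
    right
    have ha' : 0 < a := lt_of_le_of_ne ha (Ne.symm h0)
    have : ‖a • x‖⁻¹ • (a • x) = ‖x‖⁻¹ • x := by
      rw [norm_smul, Real.norm_eq_abs, abs_of_pos ha', smul_smul, mul_inv]
      congr 1
      field_simp
    rw [this]; exact hx
  · intro x hx hx'
    by_contra h0
    have h1 : ‖x‖⁻¹ • x ∈ K := hx.resolve_left h0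
    have h2 : - (‖x‖⁻¹ • x) ∈ K := by
      have := hx'.resolve_left (neg_ne_zero.2 h0)
      rwa [norm_neg, smul_neg] at this
    have h3 : dist (‖x‖⁻¹ • x) (- (‖x‖⁻¹ • x)) ≤ diam K :=
      dist_le_diam_of_mem hbd.closure h1 h2
    rw [hK, diam_closure, dist_eq_norm, sub_neg_eq_add, ← two_smul ℝ, norm_smul,
      norm_inv_smul h0] at h3
    norm_num at h3
    linarith

theorem main (h1 : S_CELL1) (h2 : S_CELL2) (h3 : S_CELL3) (h4 : S_AVG) (h5 : S_FUN) (d : ℕ)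
    (hd : 2 ≤ d) (v : Fin (d + 1) → EuclideanSpace ℝ (Fin d)) (hv : ∀ i, ‖v i‖ = 1)
    (hvv : ∀ i j, i ≠ j → inner ℝ (v i) (v j) = -1 / (d : ℝ))
    (A : Fin (d + 1) → Set (EuclideanSpace ℝ (Fin d))) (hA : ∀ i, SphConv (A i))
    (hcov : sphere (0 : EuclideanSpace ℝ (Fin d)) 1 ⊆ ⋃ i, A i) :
    ∃ i, diam {x ∈ sphere (0 : EuclideanSpace ℝ (Fin d)) 1 |
        ∀ j, inner ℝ x (v j) ≤ inner ℝ x (v 0)} ≤
      diam (A i ∩ sphere (0 : EuclideanSpace ℝ (Fin d)) 1) := by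
  have hcell2 : diam {x ∈ sphere (0 : EuclideanSpace ℝ (Fin d)) 1 |
        ∀ j, inner ℝ x (v j) ≤ inner ℝ x (v 0)} ≤ 2 := by
    refine diam_le_of_forall_dist_le (by norm_num) ?_
    rintro x ⟨hx, -⟩ y ⟨hy, -⟩
    rw [mem_sphere_zero_iff_norm] at hx hy
    calc dist x y = ‖x - y‖ := dist_eq_norm _ _
      _ ≤ ‖x‖ + ‖y‖ := norm_sub_le _ _
      _ = 2 := by rw [hx, hy]; norm_num
  by_cases hbig : ∃ i, 2 ≤ diam (A i ∩ sphere (0 : EuclideanSpace ℝ (Fin d)) 1)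
  · obtain ⟨i, hi⟩ := hbig
    exact ⟨i, hcell2.trans hi⟩
  push Not at hbig
  set C : Fin (d + 1) → Set (EuclideanSpace ℝ (Fin d)) := fun i =>
    cone (closure (A i ∩ sphere (0 : EuclideanSpace ℝ (Fin d)) 1)) with hC
  have hS : ∀ i, Sal (C i) := fun i => sal_cone (hA i) (hbig i)
  have hcov' : ∀ x, ∃ i, x ∈ C i := by
    intro x
    by_cases h0 : x = 0
    · exact ⟨0, Or.inl h0⟩
    have hu := norm_inv_smul h0
    have hmem : ‖x‖⁻¹ • x ∈ sphere (0 : EuclideanSpace ℝ (Fin d)) 1 := by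
      rw [mem_sphere_zero_iff_norm]; exact hu
    obtain ⟨i, hi⟩ := Set.mem_iUnion.1 (hcov hmem)
    exact ⟨i, Or.inr (subset_closure ⟨hi, hmem⟩)⟩
  obtain ⟨w, hw0, hw1, hw⟩ := exists_fan h5 d (by omega) (EuclideanSpace ℝ (Fin d)) (by simp) C hS
    hcov'
  obtain ⟨I, J, i, hIJ, hiI, hiJ, hx0, hy0, hle⟩ := h4 d (d / 2) (by omega) (by omega) w hw0 hw1
  refine ⟨i, ?_⟩
  change _ ≤ - cc d * _ at hle
  set x := ∑ a ∈ I, w a with hx
  set y := ∑ a ∈ J, w a with hy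
  have hxC : x ∈ C i := by
    have := (hS i).sum I (fun _ => 1) w (fun _ _ => zero_le_one) (fun a ha _ => hw a i (by
      rintro rfl; exact hiI ha))
    simpa using this
  have hyC : y ∈ C i := by
    have := (hS i).sum J (fun _ => 1) w (fun _ _ => zero_le_one) (fun a ha _ => hw a i (by
      rintro rfl; exact hiJ ha))
    simpa using this
  have hxK := hxC.resolve_left hx0
  have hyK := hyC.resolve_left hy0
  have hin : inner ℝ (‖x‖⁻¹ • x) (‖y‖⁻¹ • y) ≤ - cc d := by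
    rw [real_inner_smul_left, real_inner_smul_right]
    have hxp : 0 < ‖x‖ := norm_pos_iff.2 hx0
    have hyp : 0 < ‖y‖ := norm_pos_iff.2 hy0
    have e1 : ‖x‖⁻¹ * (‖y‖⁻¹ * inner ℝ x y) ≤ ‖x‖⁻¹ * (‖y‖⁻¹ * (- cc d * (‖x‖ * ‖y‖))) := by
      gcongr
    refine e1.trans (le_of_eq ?_)
    field_simp
  have hbd : Bornology.IsBounded (A i ∩ sphere (0 : EuclideanSpace ℝ (Fin d)) 1) :=
    isBounded_sphere.subset Set.inter_subset_right
  have hlow : √(2 + 2 * cc d) ≤ diam (A i ∩ sphere (0 : EuclideanSpace ℝ (Fin d)) 1) := by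
    rw [← diam_closure]
    refine le_trans ?_ (dist_le_diam_of_mem hbd.closure hxK hyK)
    rw [dist_eq_norm]
    apply Real.sqrt_le_iff.2
    refine ⟨norm_nonneg _, ?_⟩
    rw [norm_sub_sq_real, norm_inv_smul hx0, norm_inv_smul hy0]
    linarith
  refine le_trans ?_ hlow
  refine diam_le_of_forall_dist_le (Real.sqrt_nonneg _) ?_
  rintro p ⟨hp, hpc⟩ q ⟨hq, hqc⟩
  rw [mem_sphere_zero_iff_norm] at hp hq
  have h6 := cell_inner h1 h2 h3 d hd v hv hvv p q hp hq hpc hqc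
  apply Real.le_sqrt_of_sq_le
  rw [dist_eq_norm, norm_sub_sq_real, hp, hq]
  linarith

end Pool.Agent.Y624.SC
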