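import Pool.Agent.Y624.SC.Main
import Pool.Agent.Y606.SC.CELL1
import Pool.Agent.Y780.SC.CELL2
import Pool.Agent.Y239.SC.CELL3
import Pool.Agent.Y43.SC.AVG
import Pool.Agent.Y888.SC.FUN

set_option autoImplicit false

/-!
# Coverings of the sphere by convex sets: the lower bound
-/

namespace Pool.Agent.Y624.SC

open Metric

theorem part1 (d : ℕ) (hd : 2 ≤ d) (v : Fin (d + 1) → EuclideanSpace ℝ (Fin d))
    (hv : ∀ i, ‖v i‖ = 1) (hvv : ∀ i j, i ≠ j → inner ℝ (v i) (v j) = -1 / (d : ℝ))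
    (A : Fin (d + 1) → Set (EuclideanSpace ℝ (Fin d))) (hA : ∀ i, SphConv (A i))
    (hcov : sphere (0 : EuclideanSpace ℝ (Fin d)) 1 ⊆ ⋃ i, A i) :
    ∃ i, diam {x ∈ sphere (0 : EuclideanSpace ℝ (Fin d)) 1 |
        ∀ j, inner ℝ x (v j) ≤ inner ℝ x (v 0)} ≤
      diam (A i ∩ sphere (0 : EuclideanSpace ℝ (Fin d)) 1) :=
  main Pool.Agent.Y606.SC.done Pool.Agent.Y780.SC.done Pool.Agent.Y239.SC.done
    Pool.Agent.Y43.SC.done Pool.Agent.Y888.SC.FUN.done d hd v hv hvv A hA hcov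

end Pool.Agent.Y624.SC
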