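import Mathlib

set_option autoImplicit false

/-! Statements for the uniqueness of the simplex partition. -/

namespace Pool.Agent.Y624.SC

/-- OPEN: a convex set of the sphere contains the interior of its closure -/
def S_OPEN : Prop := ∀ (d : ℕ) (A U : Set (EuclideanSpace ℝ (Fin d))),
  (∀ x ∈ A, ‖x‖ = 1 → ∀ y ∈ A, ‖y‖ = 1 → ∀ a b : ℝ, 0 ≤ a → 0 ≤ b → ‖a • x + b • y‖ = 1 →
    a • x + b • y ∈ A) → IsOpen U →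
  (∀ x ∈ U, x ≠ 0 → ‖x‖⁻¹ • x ∈ closure (A ∩ Metric.sphere (0 : EuclideanSpace ℝ (Fin d)) 1)) →
  ∀ x ∈ U, ‖x‖ = 1 → x ∈ A

/-- PART: disjoint convex sets which contain the open cells lie in the closed cells -/
def S_PART : Prop := ∀ d : ℕ, 2 ≤ d → ∀ w : Fin (d + 1) → EuclideanSpace ℝ (Fin d),
  (∀ i, ‖w i‖ = 1) → (∀ i j, i ≠ j → inner ℝ (w i) (w j) = -1 / (d : ℝ)) →
  ∀ A : Fin (d + 1) → Set (EuclideanSpace ℝ (Fin d)),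
  (∀ i, ∀ x ∈ A i, ‖x‖ = 1 → ∀ y ∈ A i, ‖y‖ = 1 → ∀ a b : ℝ, 0 ≤ a → 0 ≤ b →
    ‖a • x + b • y‖ = 1 → a • x + b • y ∈ A i) →
  (∀ i j, i ≠ j → ∀ x, ‖x‖ = 1 → x ∈ A i → x ∉ A j) →
  (∀ i x, ‖x‖ = 1 → (∀ j, j ≠ i → inner ℝ x (w j) < inner ℝ x (w i)) → x ∈ A i) →
  ∀ i x, ‖x‖ = 1 → x ∈ A i → ∀ j, inner ℝ x (w j) ≤ inner ℝ x (w i)

end Pool.Agent.Y624.SC
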