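import Pool.Agent.Y624.SC.Part1
import Pool.Agent.Y624.SC.Stm3
import Pool.Agent.Y87.SC.RIG1
import Pool.Agent.Y145.SC.RIG2

set_option autoImplicit false

/-!
# Coverings of the sphere by convex sets: the case of equality
-/

namespace Pool.Agent.Y624.SC

open Metric

theorem cc_nonneg (d : ℕ) : 0 ≤ cc d := Real.sqrt_nonneg _

theorem cc_lt_one (d : ℕ) (hd : 2 ≤ d) : cc d < 1 := by
  have hk1 : (1 : ℝ) ≤ ((d / 2 : ℕ) : ℝ) := by
    have : 1 ≤ d / 2 := by omega
    exact_mod_cast this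
  have hk2 : ((d / 2 : ℕ) : ℝ) + 1 ≤ (d : ℝ) := by
    have : d / 2 + 1 ≤ d := by omega
    exact_mod_cast this
  unfold cc
  rw [Real.sqrt_lt' one_pos, one_pow, div_lt_one (by
    apply mul_pos <;> linarith)]
  nlinarith

theorem cell_diam (d : ℕ) (hd : 2 ≤ d) (v : Fin (d + 1) → EuclideanSpace ℝ (Fin d))
    (hv : ∀ i, ‖v i‖ = 1) (hvv : ∀ i j, i ≠ j → inner ℝ (v i) (v j) = -1 / (d : ℝ)) :
    diam {x ∈ sphere (0 : EuclideanSpace ℝ (Fin d)) 1 |
        ∀ j, inner ℝ x (v j) ≤ inner ℝ x (v 0)} ≤ √(2 + 2 * cc d) := by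
  refine diam_le_of_forall_dist_le (Real.sqrt_nonneg _) ?_
  rintro p ⟨hp, hpc⟩ q ⟨hq, hqc⟩
  rw [mem_sphere_zero_iff_norm] at hp hq
  have h6 := cell_inner Pool.Agent.Y606.SC.done Pool.Agent.Y780.SC.done Pool.Agent.Y239.SC.done d
    hd v hv hvv p q hp hq hpc hqc
  apply Real.le_sqrt_of_sq_le
  rw [dist_eq_norm, norm_sub_sq_real, hp, hq]
  linarith

theorem part2 (d : ℕ) (hd : 2 ≤ d) (v : Fin (d + 1) → EuclideanSpace ℝ (Fin d))
    (hv : ∀ i, ‖v i‖ = 1) (hvv : ∀ i j, i ≠ j → inner ℝ (v i) (v j) = -1 / (d : ℝ))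
    (A : Fin (d + 1) → Set (EuclideanSpace ℝ (Fin d))) (hA : ∀ i, SphConv (A i))
    (hcov : sphere (0 : EuclideanSpace ℝ (Fin d)) 1 ⊆ ⋃ i, A i)
    (hle : ∀ i, diam (A i ∩ sphere (0 : EuclideanSpace ℝ (Fin d)) 1) ≤
      diam {x ∈ sphere (0 : EuclideanSpace ℝ (Fin d)) 1 |
        ∀ j, inner ℝ x (v j) ≤ inner ℝ x (v 0)}) :
    ∃ u : Fin (d + 1) → EuclideanSpace ℝ (Fin d), (∀ i, ‖u i‖ = 1) ∧
      (∀ i j, i ≠ j → inner ℝ (u i) (u j) = -1 / (d : ℝ)) ∧
      ∀ i x, ‖x‖ = 1 → (∀ j, inner ℝ x (u j) ≤ inner ℝ x (u i)) →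
        x ∈ closure (A i ∩ sphere (0 : EuclideanSpace ℝ (Fin d)) 1) := by
  have hc0 := cc_nonneg d
  have hc1 := cc_lt_one d hd
  have hd0 : (0 : ℝ) < d := by
    have : 0 < d := by omega
    exact_mod_cast this
  have hlt2 : √(2 + 2 * cc d) < 2 := by
    rw [Real.sqrt_lt' two_pos]; linarith
  have hdiam : ∀ i, diam (A i ∩ sphere (0 : EuclideanSpace ℝ (Fin d)) 1) ≤ √(2 + 2 * cc d) :=
    fun i => (hle i).trans (cell_diam d hd v hv hvv)
  set C : Fin (d + 1) → Set (EuclideanSpace ℝ (Fin d)) := fun i =>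
    cone (closure (A i ∩ sphere (0 : EuclideanSpace ℝ (Fin d)) 1)) with hC
  have hS : ∀ i, Sal (C i) := fun i => sal_cone (hA i) ((hdiam i).trans_lt hlt2)
  have hcov' : ∀ x, ∃ i, x ∈ C i := by
    intro x
    by_cases h0 : x = 0
    · exact ⟨0, Or.inl h0⟩
    have hu := norm_inv_smul h0
    have hmem : ‖x‖⁻¹ • x ∈ sphere (0 : EuclideanSpace ℝ (Fin d)) 1 := by
      rw [mem_sphere_zero_iff_norm]; exact hu
    obtain ⟨i, hi⟩ := Set.mem_iUnion.1 (hcov hmem)
    exact ⟨i, Or.inr (subset_closure ⟨hi, hmem⟩)⟩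
  obtain ⟨w, hw0, ⟨i₀, hw1⟩, hw⟩ := exists_fan Pool.Agent.Y888.SC.FUN.done d (by omega)
    (EuclideanSpace ℝ (Fin d)) (by simp) C hS hcov'
  have hin : ∀ I J : Finset (Fin (d + 1)), Disjoint I J → I.card = d / 2 → J.card = d - d / 2 →
      - √(((d / 2 : ℕ) : ℝ) * (d - (d / 2 : ℕ)) /
        ((((d / 2 : ℕ) : ℝ) + 1) * (d - (d / 2 : ℕ) + 1))) *
        (‖∑ a ∈ I, w a‖ * ‖∑ a ∈ J, w a‖) ≤
        (inner ℝ (∑ a ∈ I, w a) (∑ a ∈ J, w a) : ℝ) := by
    intro I J hIJ hI hJ
    change - cc d * _ ≤ _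
    obtain ⟨i, hi⟩ : ∃ i, i ∉ I ∪ J := by
      by_contra hall
      push Not at hall
      have h1 : I ∪ J = Finset.univ := Finset.eq_univ_iff_forall.2 hall
      have h2 := Finset.card_union_of_disjoint hIJ
      rw [h1, Finset.card_univ, Fintype.card_fin] at h2
      omega
    rw [Finset.mem_union, not_or] at hi
    set x := ∑ a ∈ I, w a with hx
    set y := ∑ a ∈ J, w a with hy
    by_cases hx0 : x = 0
    · rw [hx0, norm_zero, zero_mul, mul_zero, inner_zero_left]
    by_cases hy0 : y = 0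
    · rw [hy0, norm_zero, mul_zero, mul_zero, inner_zero_right]
    have hxC : x ∈ C i := by
      have := (hS i).sum I (fun _ => 1) w (fun _ _ => zero_le_one) (fun a ha _ => hw a i (by
        rintro rfl; exact hi.1 ha))
      simpa using this
    have hyC : y ∈ C i := by
      have := (hS i).sum J (fun _ => 1) w (fun _ _ => zero_le_one) (fun a ha _ => hw a i (by
        rintro rfl; exact hi.2 ha))
      simpa using this
    have hxK := hxC.resolve_left hx0
    have hyK := hyC.resolve_left hy0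
    have hbd : Bornology.IsBounded (A i ∩ sphere (0 : EuclideanSpace ℝ (Fin d)) 1) :=
      isBounded_sphere.subset Set.inter_subset_right
    have h3 : dist (‖x‖⁻¹ • x) (‖y‖⁻¹ • y) ≤ √(2 + 2 * cc d) := by
      refine le_trans (dist_le_diam_of_mem hbd.closure hxK hyK) ?_
      rw [diam_closure]
      exact hdiam i
    have h4 : - cc d ≤ inner ℝ (‖x‖⁻¹ • x) (‖y‖⁻¹ • y) := by
      rw [dist_eq_norm] at h3
      have h5 := (Real.le_sqrt (norm_nonneg _) (by linarith)).1 h3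
      rw [norm_sub_sq_real, norm_inv_smul hx0, norm_inv_smul hy0] at h5
      linarith
    rw [real_inner_smul_left, real_inner_smul_right] at h4
    have hxp : 0 < ‖x‖ := norm_pos_iff.2 hx0
    have hyp : 0 < ‖y‖ := norm_pos_iff.2 hy0
    have e1 : - cc d * (‖x‖ * ‖y‖) ≤ (‖x‖⁻¹ * (‖y‖⁻¹ * inner ℝ x y)) * (‖x‖ * ‖y‖) := by
      exact mul_le_mul_of_nonneg_right h4 (by positivity)
    refine e1.trans (le_of_eq ?_)
    field_simp
  have h7 := Pool.Agent.Y145.SC.done d (d / 2) (by omega) (by omega) w hw0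
    (Pool.Agent.Y87.SC.done d (d / 2) (by omega) (by omega) w hw0 hin)
  have hn : ∀ a, ‖w a‖ = ‖w i₀‖ := by
    intro a
    by_cases h : a = i₀
    · rw [h]
    · exact (h7 a i₀ h).2
  have hr : 0 < ‖w i₀‖ := norm_pos_iff.2 hw1
  refine ⟨fun i => - (‖w i₀‖⁻¹ • w i), ?_, ?_, ?_⟩
  · intro i
    rw [norm_neg, norm_smul, norm_inv, norm_norm, hn i, inv_mul_cancel₀ hr.ne']
  · intro i j hij
    have h8 := (h7 i j hij).1
    rw [hn i] at h8
    rw [inner_neg_neg, real_inner_smul_left, real_inner_smul_right]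
    have h9 : (inner ℝ (w i) (w j) : ℝ) = - ‖w i₀‖ ^ 2 / d := by
      field_simp
      linarith
    rw [h9]
    field_simp
  · intro i x hx hxc
    set u : Fin (d + 1) → EuclideanSpace ℝ (Fin d) := fun i => - (‖w i₀‖⁻¹ • w i) with hu
    have hu1 : ∀ i, ‖u i‖ = 1 := by
      intro i
      simp only [hu]
      rw [norm_neg, norm_smul, norm_inv, norm_norm, hn i, inv_mul_cancel₀ hr.ne']
    have huu : ∀ i j, i ≠ j → inner ℝ (u i) (u j) = -1 / (d : ℝ) := by
      intro i j hij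
      have h8 := (h7 i j hij).1
      rw [hn i] at h8
      simp only [hu]
      rw [inner_neg_neg, real_inner_smul_left, real_inner_smul_right]
      have h9 : (inner ℝ (w i) (w j) : ℝ) = - ‖w i₀‖ ^ 2 / d := by
        field_simp
        linarith
      rw [h9]
      field_simp
    obtain ⟨a, ha0, ha, hxa⟩ := Pool.Agent.Y606.SC.done d hd (fun j => u (Equiv.swap 0 i j))
      (fun j => hu1 _) (fun j k hjk => huu _ _ (fun h => hjk ((Equiv.swap 0 i).injective h))) x
      (by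
        intro j
        rw [Equiv.swap_apply_left]
        exact hxc _)
    have hxC : x ∈ C i := by
      have h10 := (hS i).sum Finset.univ (fun j => a j * ‖w i₀‖⁻¹)
        (fun j => w (Equiv.swap 0 i j)) (fun j _ => mul_nonneg (ha j) (inv_nonneg.2 hr.le))
        (fun j _ hj => hw _ _ (by
          intro h
          have h11 : j = 0 := by
            have := congrArg (Equiv.swap 0 i) h
            rw [Equiv.swap_apply_self, Equiv.swap_apply_right] at this
            exact this.symm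
          apply hj
          rw [h11, ha0, zero_mul]))
      have h12 : x = ∑ j, (a j * ‖w i₀‖⁻¹) • w (Equiv.swap 0 i j) := by
        rw [hxa, ← Finset.sum_neg_distrib]
        refine Finset.sum_congr rfl fun j _ => ?_
        simp only [hu]
        rw [smul_neg, neg_neg, smul_smul]
      rw [h12]; exact h10
    have hx0 : x ≠ 0 := by
      rintro rfl
      rw [norm_zero] at hx
      exact zero_ne_one hx
    have := hxC.resolve_left hx0
    rwa [hx, inv_one, one_smul] at this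

end Pool.Agent.Y624.SC
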