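import Pool.Agent.Y624.SC.Part2

set_option autoImplicit false

/-!
# Coverings of the sphere by convex sets: the optimal coverings
-/

namespace Pool.Agent.Y624.SC

open Metric

theorem part3 (hO : S_OPEN) (hP : S_PART) (d : ℕ) (hd : 2 ≤ d)
    (v : Fin (d + 1) → EuclideanSpace ℝ (Fin d))
    (hv : ∀ i, ‖v i‖ = 1) (hvv : ∀ i j, i ≠ j → inner ℝ (v i) (v j) = -1 / (d : ℝ))
    (A : Fin (d + 1) → Set (EuclideanSpace ℝ (Fin d))) (hA : ∀ i, SphConv (A i))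
    (hcov : sphere (0 : EuclideanSpace ℝ (Fin d)) 1 ⊆ ⋃ i, A i)
    (hle : ∀ i, diam (A i ∩ sphere (0 : EuclideanSpace ℝ (Fin d)) 1) ≤
      diam {x ∈ sphere (0 : EuclideanSpace ℝ (Fin d)) 1 |
        ∀ j, inner ℝ x (v j) ≤ inner ℝ x (v 0)}) :
    ∃ u : Fin (d + 1) → EuclideanSpace ℝ (Fin d), (∀ i, ‖u i‖ = 1) ∧
      (∀ i j, i ≠ j → inner ℝ (u i) (u j) = -1 / (d : ℝ)) ∧
      (∀ i x, ‖x‖ = 1 → (∀ j, j ≠ i → inner ℝ x (u j) < inner ℝ x (u i)) → x ∈ A i) ∧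
      ((∀ i j, i ≠ j → ∀ x, ‖x‖ = 1 → x ∈ A i → x ∉ A j) →
        ∀ i x, ‖x‖ = 1 → x ∈ A i → ∀ j, inner ℝ x (u j) ≤ inner ℝ x (u i)) := by
  obtain ⟨u, hu1, huu, hu⟩ := part2 d hd v hv hvv A hA hcov hle
  have key : ∀ i x, ‖x‖ = 1 → (∀ j, j ≠ i → inner ℝ x (u j) < inner ℝ x (u i)) → x ∈ A i := by
    intro i x hx hxc
    refine hO d (A i) {x | ∀ j, j ≠ i → inner ℝ x (u j) < inner ℝ x (u i)} (hA i) ?_ ?_ x hxc hx
    · have : {x : EuclideanSpace ℝ (Fin d) | ∀ j, j ≠ i → inner ℝ x (u j) < inner ℝ x (u i)} =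
          ⋂ j : {j // j ≠ i}, {x | inner ℝ x (u j) < inner ℝ x (u i)} := by
        ext x
        simp
      rw [this]
      refine isOpen_iInter_of_finite fun j => ?_
      exact isOpen_lt (continuous_id.inner continuous_const) (continuous_id.inner continuous_const)
    · intro y hy hy0
      refine hu i _ (norm_inv_smul hy0) fun j => ?_
      rw [real_inner_smul_left, real_inner_smul_left]
      refine mul_le_mul_of_nonneg_left ?_ (inv_nonneg.2 (norm_nonneg _))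
      by_cases hj : j = i
      · rw [hj]
      · exact (hy j hj).le
  exact ⟨u, hu1, huu, key, fun hdis => hP d hd u hu1 huu A hA hdis key⟩

end Pool.Agent.Y624.SC
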