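import Mathlib

set_option autoImplicit false

/-! Statements for the case of equality. -/

namespace Pool.Agent.Y624.SC

/-- RIG1: the case of equality in the average -/
def S_RIG1 : Prop := ∀ d k : ℕ, 1 ≤ k → k < d → ∀ v : Fin (d + 1) → EuclideanSpace ℝ (Fin d),
  ∑ i, v i = 0 →
  (∀ I J : Finset (Fin (d + 1)), Disjoint I J → I.card = k → J.card = d - k →
    - √((k : ℝ) * (d - k) / (((k : ℝ) + 1) * (d - k + 1))) *
        (‖∑ a ∈ I, v a‖ * ‖∑ a ∈ J, v a‖) ≤ (inner ℝ (∑ a ∈ I, v a) (∑ a ∈ J, v a) : ℝ)) →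
  ∀ I J : Finset (Fin (d + 1)), Disjoint I J → I.card = k → J.card = d - k →
    (k : ℝ) * (d - k + 1) * ‖∑ a ∈ J, v a‖ ^ 2 = (d - k) * (k + 1) * ‖∑ a ∈ I, v a‖ ^ 2

/-- RIG2: the vectors are the vertices of a regular simplex -/
def S_RIG2 : Prop := ∀ d k : ℕ, 1 ≤ k → k < d → ∀ v : Fin (d + 1) → EuclideanSpace ℝ (Fin d),
  ∑ i, v i = 0 →
  (∀ I J : Finset (Fin (d + 1)), Disjoint I J → I.card = k → J.card = d - k →
    (k : ℝ) * (d - k + 1) * ‖∑ a ∈ J, v a‖ ^ 2 = (d - k) * (k + 1) * ‖∑ a ∈ I, v a‖ ^ 2) →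
  ∀ a b : Fin (d + 1), a ≠ b → (d : ℝ) * inner ℝ (v a) (v b) = - ‖v a‖ ^ 2 ∧ ‖v a‖ = ‖v b‖

end Pool.Agent.Y624.SC
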